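import Mathlib

/-!
# The local-global property for height-1 conditions is not determined by idempotent algebras
-/

set_option autoImplicit false

namespace Pool.Agent.Results.MP_c8915d_al.LocalGlobal

universe u v

/-- An algebra: a nonempty universe with finitary basic operations. -/
structure Alg where
  /-- the universe -/
  carrier : Type u
  nonempty : Nonempty carrier
  /-- the index set of the basic operations -/
  ops : Type v
  /-- the arities of the basic operations -/
  arity : ops → ℕ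
  /-- the basic operations -/
  op : (i : ops) → (Fin (arity i) → carrier) → carrier

/-- The algebra is idempotent: `f (x, …, x) = x` for every basic operation `f`. -/
def Alg.IsIdempotent (A : Alg.{u, v}) : Prop := ∀ (i : A.ops) (x : A.carrier), A.op i (fun _ => x) = x

/-- The `n`-ary term operations of an algebra: the smallest set of operations containing the
projections and closed under composition with the basic operations. -/
inductive IsTermOp (A : Alg.{u, v}) (n : ℕ) : ((Fin n → A.carrier) → A.carrier) → Prop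
  | proj (i : Fin n) : IsTermOp A n (fun x => x i)
  | comp (i : A.ops) (g : Fin (A.arity i) → (Fin n → A.carrier) → A.carrier)
      (hg : ∀ j, IsTermOp A n (g j)) : IsTermOp A n (fun x => A.op i (fun j => g j x))

/-- A strong Maltsev condition of height 1: finitely many variables, finitely many function symbols
with arities, and a finite list of equations between expressions `d_j (x_{σ 1}, …, x_{σ ℓ})`. -/
structure HeightOneCondition where
  /-- the number `n` of variables -/
  nvars : ℕ
  /-- the number of function symbols -/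
  nsymb : ℕ
  /-- the arities of the function symbols -/
  arity : Fin nsymb → ℕ
  /-- the equations; a side is a symbol `j` with a map from its argument places to the variables -/
  eqs : List ((Σ j : Fin nsymb, (Fin (arity j) → Fin nvars)) ×
    (Σ j : Fin nsymb, (Fin (arity j) → Fin nvars)))

/-- The algebra `A` satisfies the condition `S` on the set `F` of `n`-tuples. -/
def SatisfiesOn (A : Alg.{u, v}) (S : HeightOneCondition) (F : Set (Fin S.nvars → A.carrier)) :
    Prop :=
  ∃ t : (j : Fin S.nsymb) → (Fin (S.arity j) → A.carrier) → A.carrier,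
    (∀ j, IsTermOp A (S.arity j) (t j)) ∧
    ∀ e ∈ S.eqs, ∀ x ∈ F, t e.1.1 (fun i => x (e.1.2 i)) = t e.2.1 (fun i => x (e.2.2 i))

/-- The `k`-local-global property of `S` for a class `K` of algebras. -/
def HasLGPWith (k : ℕ) (K : Alg.{u, v} → Prop) (S : HeightOneCondition) : Prop :=
  ∀ A : Alg.{u, v}, K A → (k : Cardinal) ≤ Cardinal.mk (Fin S.nvars → A.carrier) →
    (∀ F : Finset (Fin S.nvars → A.carrier), F.card = k → SatisfiesOn A S (F : Set _)) →
    ∀ F : Finset (Fin S.nvars → A.carrier), SatisfiesOn A S (F : Set _)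

/-- The local-global property (LGP) of `S` for a class `K` of algebras. -/
def HasLGP (K : Alg.{u, v} → Prop) (S : HeightOneCondition) : Prop :=
  ∃ k : ℕ, 1 ≤ k ∧ HasLGPWith k K S

/-! ### The condition -/

/-- The condition `p(x,y,y) ≈ p(x,x,x)`, `p(x,x,y) ≈ q(x,y,y)`, `q(x,x,y) ≈ q(y,y,y)`. -/
def cond : HeightOneCondition where
  nvars := 2
  nsymb := 2
  arity := fun _ => 3
  eqs := [(⟨0, ![0, 1, 1]⟩, ⟨0, ![0, 0, 0]⟩), (⟨0, ![0, 0, 1]⟩, ⟨1, ![0, 1, 1]⟩),
    (⟨1, ![0, 0, 1]⟩, ⟨1, ![1, 1, 1]⟩)]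

section general

variable {A : Alg.{u, v}}

theorem IsTermOp.comp_term {n m : ℕ} {p : (Fin n → A.carrier) → A.carrier} (hp : IsTermOp A n p)
    (g : Fin n → (Fin m → A.carrier) → A.carrier) (hg : ∀ i, IsTermOp A m (g i)) :
    IsTermOp A m (fun x => p (fun i => g i x)) := by
  induction hp with
  | proj i => exact hg i
  | comp i f _ ih => exact IsTermOp.comp i (fun j x => f j (fun k => g k x)) ih

theorem IsTermOp.idem (hA : A.IsIdempotent) {n : ℕ} {p : (Fin n → A.carrier) → A.carrier}
    (hp : IsTermOp A n p) (x : A.carrier) : p (fun _ => x) = x := by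
  induction hp with
  | proj i => rfl
  | comp i f _ ih =>
    have : (fun j => f j (fun _ => x)) = fun _ => x := funext ih
    show A.op i (fun j => f j (fun _ => x)) = x
    rw [this]
    exact hA i x

/-- Ternary composition. -/
theorem IsTermOp.comp3 {p g0 g1 g2 : (Fin 3 → A.carrier) → A.carrier} (hp : IsTermOp A 3 p)
    (h0 : IsTermOp A 3 g0) (h1 : IsTermOp A 3 g1) (h2 : IsTermOp A 3 g2) :
    IsTermOp A 3 (fun x => p ![g0 x, g1 x, g2 x]) := by
  have h := hp.comp_term (fun i => (![g0, g1, g2] i)) (by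
    intro i
    fin_cases i
    · exact h0
    · exact h1
    · exact h2)
  have heq : (fun x => p ![g0 x, g1 x, g2 x]) = fun x => p (fun i => (![g0, g1, g2] i) x) := by
    funext x
    congr 1
    funext i
    fin_cases i <;> rfl
  rw [heq]
  exact h

theorem IsTermOp.idem3 (hA : A.IsIdempotent) {p : (Fin 3 → A.carrier) → A.carrier}
    (hp : IsTermOp A 3 p) (x : A.carrier) : p ![x, x, x] = x := by
  have h := hp.idem hA x
  have h2 : (fun _ : Fin 3 => x) = ![x, x, x] := by
    funext i
    fin_cases i <;> rfl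
  rwa [h2] at h

/-- The pair `(p, q)` satisfies the three equations on the respective sets of pairs (in an
idempotent algebra). -/
structure Good (A : Alg.{u, v}) (p q : (Fin 3 → A.carrier) → A.carrier)
    (S1 S2 S3 : Set (A.carrier × A.carrier)) : Prop where
  hp : IsTermOp A 3 p
  hq : IsTermOp A 3 q
  h1 : ∀ r ∈ S1, p ![r.1, r.2, r.2] = r.1
  h2 : ∀ r ∈ S2, p ![r.1, r.1, r.2] = q ![r.1, r.2, r.2]
  h3 : ∀ r ∈ S3, q ![r.1, r.1, r.2] = r.2

/-- The term `x ↦ p (x_i, x_j, x_k)`. -/
theorem IsTermOp.minor3 {p : (Fin 3 → A.carrier) → A.carrier} (hp : IsTermOp A 3 p)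
    (i j k : Fin 3) : IsTermOp A 3 (fun x => p ![x i, x j, x k]) :=
  hp.comp3 (IsTermOp.proj i) (IsTermOp.proj j) (IsTermOp.proj k)

theorem extend1 (hA : A.IsIdempotent) {p q p2 q2 : (Fin 3 → A.carrier) → A.carrier}
    {S1 S3 : Set (A.carrier × A.carrier)} {r s : A.carrier × A.carrier}
    (h : Good A p q S1 {s} S3)
    (h' : Good A p2 q2 {(r.1, p ![r.1, r.2, r.2])} {(s.1, p ![s.1, s.1, s.2])} S3) :
    ∃ p' q', Good A p' q' (insert r S1) {s} S3 := by
  refine ⟨fun x => p2 ![x 0, p ![x 0, x 1, x 1], p ![x 0, x 1, x 2]],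
    fun x => q2 ![x 0, q ![x 0, x 1, x 1], q ![x 0, x 1, x 2]], ?_, ?_, ?_, ?_, ?_⟩
  · exact h'.hp.comp3 (IsTermOp.proj 0) (h.hp.minor3 0 1 1) (h.hp.minor3 0 1 2)
  · exact h'.hq.comp3 (IsTermOp.proj 0) (h.hq.minor3 0 1 1) (h.hq.minor3 0 1 2)
  · intro t ht
    show p2 ![t.1, p ![t.1, t.2, t.2], p ![t.1, t.2, t.2]] = t.1
    rcases ht with rfl | ht
    · exact h'.h1 _ rfl
    · rw [h.h1 t ht]
      exact h'.hp.idem3 hA _
  · intro t ht
    rw [Set.mem_singleton_iff] at ht
    subst ht
    show p2 ![t.1, p ![t.1, t.1, t.1], p ![t.1, t.1, t.2]] =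
      q2 ![t.1, q ![t.1, t.2, t.2], q ![t.1, t.2, t.2]]
    rw [h.hp.idem3 hA, ← h.h2 t rfl]
    exact h'.h2 _ rfl
  · intro t ht
    show q2 ![t.1, q ![t.1, t.1, t.1], q ![t.1, t.1, t.2]] = t.2
    rw [h.hq.idem3 hA, h.h3 t ht]
    exact h'.h3 t ht

theorem extend3 (hA : A.IsIdempotent) {p q p2 q2 : (Fin 3 → A.carrier) → A.carrier}
    {S1 S3 : Set (A.carrier × A.carrier)} {r s : A.carrier × A.carrier}
    (h : Good A p q S1 {s} S3)
    (h' : Good A p2 q2 S1 {(p ![s.1, s.1, s.2], s.2)} {(q ![r.1, r.1, r.2], r.2)}) :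
    ∃ p' q', Good A p' q' S1 {s} (insert r S3) := by
  refine ⟨fun x => p2 ![p ![x 0, x 1, x 2], p ![x 1, x 1, x 2], x 2],
    fun x => q2 ![q ![x 0, x 1, x 2], q ![x 1, x 1, x 2], x 2], ?_, ?_, ?_, ?_, ?_⟩
  · exact h'.hp.comp3 (h.hp.minor3 0 1 2) (h.hp.minor3 1 1 2) (IsTermOp.proj 2)
  · exact h'.hq.comp3 (h.hq.minor3 0 1 2) (h.hq.minor3 1 1 2) (IsTermOp.proj 2)
  · intro t ht
    show p2 ![p ![t.1, t.2, t.2], p ![t.2, t.2, t.2], t.2] = t.1
    rw [h.hp.idem3 hA, h.h1 t ht]
    exact h'.h1 t ht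
  · intro t ht
    rw [Set.mem_singleton_iff] at ht
    subst ht
    show p2 ![p ![t.1, t.1, t.2], p ![t.1, t.1, t.2], t.2] =
      q2 ![q ![t.1, t.2, t.2], q ![t.2, t.2, t.2], t.2]
    rw [h.hq.idem3 hA, ← h.h2 t rfl]
    exact h'.h2 _ rfl
  · intro t ht
    show q2 ![q ![t.1, t.1, t.2], q ![t.1, t.1, t.2], t.2] = t.2
    rcases ht with rfl | ht
    · exact h'.h3 _ rfl
    · rw [h.h3 t ht]
      exact h'.hq.idem3 hA _

theorem extend2 (hA : A.IsIdempotent) {p q p2 q2 : (Fin 3 → A.carrier) → A.carrier}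
    {S1 S2 S3 : Set (A.carrier × A.carrier)} {r : A.carrier × A.carrier}
    (h : Good A p q S1 S2 S3)
    (h' : Good A p2 q2 S1 {(p ![r.1, r.1, r.2], q ![r.1, r.2, r.2])} S3) :
    ∃ p' q', Good A p' q' S1 (insert r S2) S3 := by
  refine ⟨fun x => p2 ![p ![x 0, x 1, x 2], p ![x 1, x 1, x 2], q ![x 1, x 2, x 2]],
    fun x => q2 ![p ![x 0, x 0, x 1], q ![x 0, x 1, x 1], q ![x 0, x 1, x 2]], ?_, ?_, ?_, ?_, ?_⟩
  · exact h'.hp.comp3 (h.hp.minor3 0 1 2) (h.hp.minor3 1 1 2) (h.hq.minor3 1 2 2)
  · exact h'.hq.comp3 (h.hp.minor3 0 0 1) (h.hq.minor3 0 1 1) (h.hq.minor3 0 1 2)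
  · intro t ht
    show p2 ![p ![t.1, t.2, t.2], p ![t.2, t.2, t.2], q ![t.2, t.2, t.2]] = t.1
    rw [h.hp.idem3 hA, h.hq.idem3 hA, h.h1 t ht]
    exact h'.h1 t ht
  · intro t ht
    show p2 ![p ![t.1, t.1, t.2], p ![t.1, t.1, t.2], q ![t.1, t.2, t.2]] =
      q2 ![p ![t.1, t.1, t.2], q ![t.1, t.2, t.2], q ![t.1, t.2, t.2]]
    rcases ht with rfl | ht
    · exact h'.h2 _ rfl
    · rw [h.h2 t ht, h'.hp.idem3 hA, h'.hq.idem3 hA]
  · intro t ht
    show q2 ![p ![t.1, t.1, t.1], q ![t.1, t.1, t.1], q ![t.1, t.1, t.2]] = t.2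
    rw [h.hp.idem3 hA, h.hq.idem3 hA, h.h3 t ht]
    exact h'.h3 t ht

theorem good_of_local (hA : A.IsIdempotent)
    (hloc : ∀ r1 r2 r3 : A.carrier × A.carrier, ∃ p q, Good A p q {r1} {r2} {r3})
    (S : Finset (A.carrier × A.carrier)) : ∃ p q, Good A p q (S : Set _) (S : Set _) (S : Set _) := by
  classical
  -- enlarge the first set
  have hB : ∀ (S1 : Finset (A.carrier × A.carrier)) (s r3 : A.carrier × A.carrier),
      ∃ p q, Good A p q (S1 : Set _) {s} {r3} := by
    intro S1
    induction S1 using Finset.induction_on with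
    | empty =>
      intro s r3
      obtain ⟨p, q, h⟩ := hloc s s r3
      exact ⟨p, q, h.hp, h.hq, by simp, h.h2, h.h3⟩
    | insert r S1 _ ih =>
      intro s r3
      obtain ⟨p, q, h⟩ := ih s r3
      obtain ⟨p2, q2, h'⟩ := hloc (r.1, p ![r.1, r.2, r.2]) (s.1, p ![s.1, s.1, s.2]) r3
      rw [Finset.coe_insert]
      exact extend1 hA h h'
  -- enlarge the third set
  have hC : ∀ (S1 S3 : Finset (A.carrier × A.carrier)) (s : A.carrier × A.carrier),
      ∃ p q, Good A p q (S1 : Set _) {s} (S3 : Set _) := by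
    intro S1 S3
    induction S3 using Finset.induction_on with
    | empty =>
      intro s
      obtain ⟨p, q, h⟩ := hB S1 s s
      exact ⟨p, q, h.hp, h.hq, h.h1, h.h2, by simp⟩
    | insert r S3 _ ih =>
      intro s
      obtain ⟨p, q, h⟩ := ih s
      obtain ⟨p2, q2, h'⟩ := hB S1 (p ![s.1, s.1, s.2], s.2) (q ![r.1, r.1, r.2], r.2)
      rw [Finset.coe_insert]
      exact extend3 hA h h'
  -- enlarge the second set
  have hD : ∀ (S1 S2 S3 : Finset (A.carrier × A.carrier)),
      ∃ p q, Good A p q (S1 : Set _) (S2 : Set _) (S3 : Set _) := by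
    intro S1 S2 S3
    induction S2 using Finset.induction_on with
    | empty =>
      exact ⟨fun x => x 0, fun x => x 2, IsTermOp.proj 0, IsTermOp.proj 2, by simp, by simp,
        by simp⟩
    | insert r S2 _ ih =>
      obtain ⟨p, q, h⟩ := ih
      obtain ⟨p2, q2, h'⟩ := hC S1 S3 (p ![r.1, r.1, r.2], q ![r.1, r.2, r.2])
      rw [Finset.coe_insert]
      exact extend2 hA h h'
  exact hD S S S

/-- Reformulation of the three equations. -/
theorem satisfiesOn_cond_iff (F : Set (Fin 2 → A.carrier)) : SatisfiesOn A cond F ↔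
    ∃ p q : (Fin 3 → A.carrier) → A.carrier, IsTermOp A 3 p ∧ IsTermOp A 3 q ∧
      ∀ x : Fin 2 → A.carrier, x ∈ F →
      p ![x 0, x 1, x 1] = p ![x 0, x 0, x 0] ∧ p ![x 0, x 0, x 1] = q ![x 0, x 1, x 1] ∧
      q ![x 0, x 0, x 1] = q ![x 1, x 1, x 1] := by
  have hfun : ∀ (x : Fin 2 → A.carrier) (a b c : Fin 2),
      (fun i : Fin 3 => x (![a, b, c] i)) = ![x a, x b, x c] := by
    intro x a b c
    funext i
    fin_cases i <;> rfl
  constructor
  · rintro ⟨t, ht, he⟩
    have e1 := he (⟨(0 : Fin 2), ![(0 : Fin 2), (1 : Fin 2), (1 : Fin 2)]⟩,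
      ⟨(0 : Fin 2), ![(0 : Fin 2), (0 : Fin 2), (0 : Fin 2)]⟩) (List.Mem.head _)
    have e2 := he (⟨(0 : Fin 2), ![(0 : Fin 2), (0 : Fin 2), (1 : Fin 2)]⟩,
      ⟨(1 : Fin 2), ![(0 : Fin 2), (1 : Fin 2), (1 : Fin 2)]⟩) (List.Mem.tail _ (List.Mem.head _))
    have e3 := he (⟨(1 : Fin 2), ![(0 : Fin 2), (0 : Fin 2), (1 : Fin 2)]⟩,
      ⟨(1 : Fin 2), ![(1 : Fin 2), (1 : Fin 2), (1 : Fin 2)]⟩)
        (List.Mem.tail _ (List.Mem.tail _ (List.Mem.head _)))
    refine ⟨t (0 : Fin 2), t (1 : Fin 2), ht (0 : Fin 2), ht (1 : Fin 2), fun x hx => ⟨?_, ?_, ?_⟩⟩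
    · have h := e1 x hx
      rw [← hfun x 0 1 1, ← hfun x 0 0 0]
      exact h
    · have h := e2 x hx
      rw [← hfun x 0 0 1, ← hfun x 0 1 1]
      exact h
    · have h := e3 x hx
      rw [← hfun x 0 0 1, ← hfun x 1 1 1]
      exact h
  · rintro ⟨p, q, hp, hq, h⟩
    refine ⟨fun (j : Fin 2) => if j = 0 then p else q, ?_, ?_⟩
    · intro j
      change Fin 2 at j
      fin_cases j
      · exact hp
      · exact hq
    · intro e he x hx
      obtain ⟨h1, h2, h3⟩ := h x hx
      rw [← hfun x 0 1 1, ← hfun x 0 0 0] at h1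
      rw [← hfun x 0 0 1, ← hfun x 0 1 1] at h2
      rw [← hfun x 0 0 1, ← hfun x 1 1 1] at h3
      rcases List.mem_cons.1 he with he | he
      · subst he
        exact h1
      · rcases List.mem_cons.1 he with he | he
        · subst he
          exact h2
        · rcases List.mem_cons.1 he with he | he
          · subst he
            exact h3
          · exact absurd he List.not_mem_nil

theorem lgp_idempotent : HasLGP.{u, v} Alg.IsIdempotent cond := by
  classical
  refine ⟨3, by norm_num, ?_⟩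
  intro A hA hcard hloc F
  -- the 3-local hypothesis for three given pairs
  have hloc' : ∀ r1 r2 r3 : A.carrier × A.carrier, ∃ p q, Good A p q {r1} {r2} {r3} := by
    intro r1 r2 r3
    let tup : A.carrier × A.carrier → (Fin 2 → A.carrier) := fun r => ![r.1, r.2]
    obtain ⟨G, hG⟩ : ∃ G : Finset (Fin 2 → A.carrier), 3 ≤ G.card :=
      Cardinal.exists_finset_le_card _ 3 hcard
    obtain ⟨F', hF1, -, hF3⟩ := Finset.exists_subsuperset_card_eq
      (s := {tup r1, tup r2, tup r3}) (t := {tup r1, tup r2, tup r3} ∪ G) (n := 3)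
      Finset.subset_union_left Finset.card_le_three
      (hG.trans (Finset.card_le_card Finset.subset_union_right))
    obtain ⟨p, q, hp, hq, h⟩ := (satisfiesOn_cond_iff _).1 (hloc F' hF3)
    refine ⟨p, q, hp, hq, ?_, ?_, ?_⟩
    · intro r hr
      rw [Set.mem_singleton_iff] at hr
      have := (h (tup r1) (hF1 (by simp))).1
      simp only [tup, Matrix.cons_val_zero, Matrix.cons_val_one] at this
      rw [hr, this, hp.idem3 hA]
    · intro r hr
      rw [Set.mem_singleton_iff] at hr
      have := (h (tup r2) (hF1 (by simp))).2.1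
      rw [hr]
      simpa only [tup, Matrix.cons_val_zero, Matrix.cons_val_one] using this
    · intro r hr
      rw [Set.mem_singleton_iff] at hr
      have := (h (tup r3) (hF1 (by simp))).2.2
      simp only [tup, Matrix.cons_val_zero, Matrix.cons_val_one] at this
      rw [hr, this, hq.idem3 hA]
  change Finset (Fin 2 → A.carrier) at F
  obtain ⟨p, q, h⟩ := good_of_local hA hloc' (F.image fun x => (x 0, x 1))
  refine (satisfiesOn_cond_iff _).2 ⟨p, q, h.hp, h.hq, fun x hx => ?_⟩
  have hmem : ((x 0, x 1) : A.carrier × A.carrier) ∈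
      ((F.image fun x => (x 0, x 1) : Finset (A.carrier × A.carrier)) : Set _) := by
    rw [Finset.coe_image]
    exact ⟨x, hx, rfl⟩
  refine ⟨?_, h.h2 _ hmem, ?_⟩
  · rw [h.hp.idem3 hA]
    exact h.h1 _ hmem
  · rw [h.hq.idem3 hA]
    exact h.h3 _ hmem

end general

/-! ### The failure of the local-global property for all algebras -/

/-- The information kept by the basic operation `p_E`. -/
def codeP (E : Finset ℕ) (a b c : ℕ) : ℕ × ℕ × ℕ × ℕ :=
  if b = c then (if a ∈ E then (0, a, 0, 0) else (1, a, 0, 0))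
  else if a = b ∧ a ∈ E ∧ c ∈ E then (2, a, c, 0) else (3, a, b, c)

/-- The information kept by the basic operation `q_E`. -/
def codeQ (E : Finset ℕ) (a b c : ℕ) : ℕ × ℕ × ℕ × ℕ :=
  if a = b then (if c ∈ E then (0, c, 0, 0) else (4, c, 0, 0))
  else if b = c ∧ a ∈ E ∧ c ∈ E then (2, a, c, 0) else (5, a, b, c)

/-- The information kept by the basic operations `p_E` (`true`) and `q_E` (`false`). -/
def code (s : Bool) (E : Finset ℕ) (a b c : ℕ) : ℕ × ℕ × ℕ × ℕ :=
  if s = true then codeP E a b c else codeQ E a b c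

/-- The basic operations on the natural numbers. -/
def opVal (s : Bool) (E : Finset ℕ) (a b c : ℕ) : ℕ := 2 * Encodable.encode (E, code s E a b c) + 1

/-- The algebras which satisfy the condition on all small sets. -/
def badAlg (k : ℕ) : Alg.{u, v} where
  carrier := ULift.{u} ℕ
  nonempty := ⟨⟨0⟩⟩
  ops := ULift.{v} (Bool × {E : Finset ℕ // E.card ≤ 2 * k})
  arity := fun _ => 3
  op := fun i x => ⟨opVal i.down.1 i.down.2.1 (x (0 : Fin 3)).down (x (1 : Fin 3)).down
    (x (2 : Fin 3)).down⟩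

theorem opVal_inj {s s' : Bool} {E E' : Finset ℕ} {a b c a' b' c' : ℕ}
    (h : opVal s E a b c = opVal s' E' a' b' c') : E = E' ∧ code s E a b c = code s' E' a' b' c' := by
  unfold opVal at h
  have h2 : Encodable.encode (E, code s E a b c) = Encodable.encode (E', code s' E' a' b' c') := by
    omega
  have h3 := Encodable.encode_injective h2
  exact ⟨congrArg Prod.fst h3, congrArg Prod.snd h3⟩

theorem code_true_fst (E : Finset ℕ) (a b c : ℕ) : (code true E a b c).2.1 = a := by
  rw [code, if_pos rfl, codeP]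
  split_ifs <;> rfl

/-- Recovers the last argument of `q_E`. -/
def third (m : ℕ × ℕ × ℕ × ℕ) : ℕ :=
  if m.1 = 0 ∨ m.1 = 4 then m.2.1 else if m.1 = 2 then m.2.2.1 else m.2.2.2

theorem third_code_false (E : Finset ℕ) (a b c : ℕ) : third (code false E a b c) = c := by
  rw [code, if_neg (by simp), codeQ]
  split_ifs <;> simp [third]

theorem opVal_true_inj {E E' : Finset ℕ} {a b c a' b' c' : ℕ}
    (h : opVal true E a b c = opVal true E' a' b' c') : a = a' := by
  have h2 := (opVal_inj h).2
  rw [← code_true_fst E a b c, h2, code_true_fst]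

theorem opVal_false_inj {E E' : Finset ℕ} {a b c a' b' c' : ℕ}
    (h : opVal false E a b c = opVal false E' a' b' c') : c = c' := by
  have h2 := (opVal_inj h).2
  rw [← third_code_false E a b c, h2, third_code_false]

/-- A common value of `p_E` and `q_E'` has all its relevant arguments in `E`. -/
theorem opVal_true_false {E E' : Finset ℕ} {a b c a' b' c' : ℕ}
    (h : opVal true E a b c = opVal false E' a' b' c') : E = E' ∧ a ∈ E ∧ c' ∈ E := by
  obtain ⟨h1, h2⟩ := opVal_inj h
  subst h1
  refine ⟨rfl, ?_⟩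
  rw [code, if_pos rfl, code, if_neg (by simp), codeP, codeQ] at h2
  split_ifs at h2 <;> simp_all

section bad

variable (k : ℕ)

theorem term_inj {s : (Fin 3 → (badAlg.{u, v} k).carrier) → (badAlg.{u, v} k).carrier}
    (hs : IsTermOp (badAlg.{u, v} k) 3 s) (x y : (badAlg.{u, v} k).carrier)
    (h : s (fun _ => x) = s (fun _ => y)) : x = y := by
  induction hs with
  | proj i => exact h
  | comp i g hg ih =>
    have h' : opVal i.down.1 i.down.2.1 (g (0 : Fin 3) (fun _ => x)).down
        (g (1 : Fin 3) (fun _ => x)).down (g (2 : Fin 3) (fun _ => x)).down =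
        opVal i.down.1 i.down.2.1 (g (0 : Fin 3) (fun _ => y)).down
        (g (1 : Fin 3) (fun _ => y)).down (g (2 : Fin 3) (fun _ => y)).down :=
      congrArg ULift.down h
    cases hb : i.down.1 with
    | true =>
      rw [hb] at h'
      exact ih (0 : Fin 3) (ULift.ext _ _ (opVal_true_inj h'))
    | false =>
      rw [hb] at h'
      exact ih (2 : Fin 3) (ULift.ext _ _ (opVal_false_inj h'))

/-- The three equations for `(s, t)` at the pair `(x, y)`. -/
def EqAt (s t : (Fin 3 → (badAlg.{u, v} k).carrier) → (badAlg.{u, v} k).carrier)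
    (x y : (badAlg.{u, v} k).carrier) : Prop :=
  s ![x, y, y] = s ![x, x, x] ∧ s ![x, x, y] = t ![x, y, y] ∧ t ![x, x, y] = t ![y, y, y]

/-- The set of `2 k + 1` even numbers. -/
def Ev (x : (badAlg.{u, v} k).carrier) : Prop := ∃ i, i < 2 * k + 1 ∧ x.down = 2 * i

/-- No injective function maps `2 k + 1` points to a set with at most `2 k` elements. -/
theorem pigeon (E : Finset ℕ) (hE : E.card ≤ 2 * k)
    {s : (Fin 3 → (badAlg.{u, v} k).carrier) → (badAlg.{u, v} k).carrier}
    (hs : IsTermOp (badAlg.{u, v} k) 3 s)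
    (h : ∀ x : (badAlg.{u, v} k).carrier, Ev k x → (s ![x, x, x]).down ∈ E) : False := by
  have hlt : E.card < (Finset.range (2 * k + 1)).card := by
    rw [Finset.card_range]
    omega
  obtain ⟨i, hi, j, hj, hij, he⟩ := Finset.exists_ne_map_eq_of_card_lt_of_maps_to hlt
    (f := fun i : ℕ => (s ![(⟨2 * i⟩ : ULift ℕ), (⟨2 * i⟩ : ULift ℕ), (⟨2 * i⟩ : ULift ℕ)]).down)
    (fun i hi => h ⟨2 * i⟩ ⟨i, Finset.mem_range.1 hi, rfl⟩)
  have hconst : ∀ x : (badAlg.{u, v} k).carrier, (![x, x, x] : Fin 3 → _) = fun _ => x := by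
    intro x
    funext l
    fin_cases l <;> rfl
  have h3 := ULift.ext _ _ he
  have h4 : s (fun _ => (⟨2 * i⟩ : ULift ℕ)) = s (fun _ => (⟨2 * j⟩ : ULift ℕ)) := by
    rw [← hconst, ← hconst]
    exact h3
  have h5 := congrArg ULift.down (term_inj k hs _ _ h4)
  have h6 : 2 * i = 2 * j := h5
  omega

theorem op_down (i : (badAlg.{u, v} k).ops) (x : Fin 3 → (badAlg.{u, v} k).carrier) :
    ((badAlg.{u, v} k).op i x).down = opVal i.down.1 i.down.2.1 (x 0).down (x 1).down (x 2).down :=
  rfl

theorem const_down (i : Fin 3) (x : (badAlg.{u, v} k).carrier) :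
    ((![x, x, x] : Fin 3 → (badAlg.{u, v} k).carrier) i) = x := by
  fin_cases i <;> rfl

theorem no_terms (hk : 1 ≤ k)
    {s : (Fin 3 → (badAlg.{u, v} k).carrier) → (badAlg.{u, v} k).carrier}
    (hs : IsTermOp (badAlg.{u, v} k) 3 s) :
    ∀ t : (Fin 3 → (badAlg.{u, v} k).carrier) → (badAlg.{u, v} k).carrier,
      IsTermOp (badAlg.{u, v} k) 3 t →
      ¬ ∀ x y : (badAlg.{u, v} k).carrier, Ev k x → Ev k y → EqAt k s t x y := by
  have hE0 : Ev k (⟨0⟩ : ULift ℕ) := ⟨0, by omega, rfl⟩
  have hE2 : Ev k (⟨2⟩ : ULift ℕ) := ⟨1, by omega, rfl⟩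
  induction hs with
  | proj i =>
    intro t ht h
    cases ht with
    | proj j =>
      obtain ⟨h1, h2, h3⟩ := h _ _ hE0 hE2
      have h1' := congrArg ULift.down h1
      have h2' := congrArg ULift.down h2
      have h3' := congrArg ULift.down h3
      fin_cases i <;> fin_cases j <;> simp at h1' h2' h3'
    | comp j g hg =>
      have h00 := congrArg ULift.down (h _ _ hE0 hE0).2.1
      beta_reduce at h00
      rw [const_down] at h00
      have h01 : 0 = opVal j.down.1 j.down.2.1 _ _ _ := h00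
      unfold opVal at h01
      omega
  | comp i f hf ih =>
    intro t ht h
    cases ht with
    | proj j =>
      have h00 := congrArg ULift.down (h _ _ hE0 hE0).2.1
      beta_reduce at h00
      rw [const_down] at h00
      have h01 : opVal i.down.1 i.down.2.1 _ _ _ = 0 := h00
      unfold opVal at h01
      omega
    | comp j g hg =>
      have key : ∀ x y : (badAlg.{u, v} k).carrier, Ev k x → Ev k y →
          opVal i.down.1 i.down.2.1 (f (0 : Fin 3) ![x, y, y]).down (f (1 : Fin 3) ![x, y, y]).down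
            (f (2 : Fin 3) ![x, y, y]).down =
          opVal i.down.1 i.down.2.1 (f (0 : Fin 3) ![x, x, x]).down (f (1 : Fin 3) ![x, x, x]).down
            (f (2 : Fin 3) ![x, x, x]).down ∧
          opVal i.down.1 i.down.2.1 (f (0 : Fin 3) ![x, x, y]).down (f (1 : Fin 3) ![x, x, y]).down
            (f (2 : Fin 3) ![x, x, y]).down =
          opVal j.down.1 j.down.2.1 (g (0 : Fin 3) ![x, y, y]).down (g (1 : Fin 3) ![x, y, y]).down
            (g (2 : Fin 3) ![x, y, y]).down ∧
          opVal j.down.1 j.down.2.1 (g (0 : Fin 3) ![x, x, y]).down (g (1 : Fin 3) ![x, x, y]).down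
            (g (2 : Fin 3) ![x, x, y]).down =
          opVal j.down.1 j.down.2.1 (g (0 : Fin 3) ![y, y, y]).down (g (1 : Fin 3) ![y, y, y]).down
            (g (2 : Fin 3) ![y, y, y]).down := by
        intro x y hx hy
        obtain ⟨h1, h2, h3⟩ := h x y hx hy
        exact ⟨congrArg ULift.down h1, congrArg ULift.down h2, congrArg ULift.down h3⟩
      cases hbi : i.down.1 with
      | true =>
        cases hbj : j.down.1 with
        | true =>
          rw [hbi, hbj] at key
          refine ih (0 : Fin 3) (g (0 : Fin 3)) (hg (0 : Fin 3)) fun x y hx hy => ?_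
          obtain ⟨h1, h2, h3⟩ := key x y hx hy
          exact ⟨ULift.ext _ _ (opVal_true_inj h1), ULift.ext _ _ (opVal_true_inj h2),
            ULift.ext _ _ (opVal_true_inj h3)⟩
        | false =>
          rw [hbi, hbj] at key
          refine pigeon k i.down.2.1 i.down.2.2 (hf (0 : Fin 3)) fun x hx => ?_
          exact (opVal_true_false (key x x hx hx).2.1).2.1
      | false =>
        cases hbj : j.down.1 with
        | true =>
          rw [hbi, hbj] at key
          refine pigeon k j.down.2.1 j.down.2.2 (hf (2 : Fin 3)) fun x hx => ?_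
          exact (opVal_true_false (key x x hx hx).2.1.symm).2.2
        | false =>
          rw [hbi, hbj] at key
          refine ih (2 : Fin 3) (g (2 : Fin 3)) (hg (2 : Fin 3)) fun x y hx hy => ?_
          obtain ⟨h1, h2, h3⟩ := key x y hx hy
          exact ⟨ULift.ext _ _ (opVal_false_inj h1), ULift.ext _ _ (opVal_false_inj h2),
            ULift.ext _ _ (opVal_false_inj h3)⟩

/-- The algebra satisfies the condition on every set of at most `k` pairs. -/
theorem local_sat (F : Finset (Fin 2 → (badAlg.{u, v} k).carrier)) (hF : F.card = k) :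
    SatisfiesOn (badAlg.{u, v} k) cond {x | x ∈ F} := by
  classical
  let E : Finset ℕ := F.biUnion fun x => {(x 0).down, (x 1).down}
  have hEc : E.card ≤ 2 * k := by
    calc E.card ≤ ∑ x ∈ F, ({(x 0).down, (x 1).down} : Finset ℕ).card := Finset.card_biUnion_le
      _ ≤ ∑ _x ∈ F, 2 := Finset.sum_le_sum fun x _ => Finset.card_le_two
      _ = 2 * k := by rw [Finset.sum_const, hF, smul_eq_mul, mul_comm]
  have hE0 : ∀ x ∈ F, (x 0).down ∈ E := fun x hx =>
    Finset.mem_biUnion.2 ⟨x, hx, by simp⟩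
  have hE1 : ∀ x ∈ F, (x 1).down ∈ E := fun x hx =>
    Finset.mem_biUnion.2 ⟨x, hx, by simp⟩
  refine (satisfiesOn_cond_iff _).2
    ⟨fun x => (badAlg.{u, v} k).op ⟨(true, ⟨E, hEc⟩)⟩ (fun j : Fin 3 => x j),
      fun x => (badAlg.{u, v} k).op ⟨(false, ⟨E, hEc⟩)⟩ (fun j : Fin 3 => x j),
      IsTermOp.comp _ _ fun j => IsTermOp.proj j, IsTermOp.comp _ _ fun j => IsTermOp.proj j,
      fun x hx => ⟨?_, ?_, ?_⟩⟩
  · have hx0 := hE0 x hx
    have hx1 := hE1 x hx
    refine ULift.ext _ _ ?_
    show opVal true E (x 0).down (x 1).down (x 1).down =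
      opVal true E (x 0).down (x 0).down (x 0).down
    have : code true E (x 0).down (x 1).down (x 1).down =
      code true E (x 0).down (x 0).down (x 0).down := by
      rw [code, if_pos rfl, code, if_pos rfl, codeP, codeP, if_pos rfl, if_pos rfl]
    rw [opVal, opVal, this]
  · have hx0 := hE0 x hx
    have hx1 := hE1 x hx
    refine ULift.ext _ _ ?_
    show opVal true E (x 0).down (x 0).down (x 1).down =
      opVal false E (x 0).down (x 1).down (x 1).down
    have : code true E (x 0).down (x 0).down (x 1).down =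
      code false E (x 0).down (x 1).down (x 1).down := by
      rw [code, if_pos rfl, code, if_neg (by simp), codeP, codeQ]
      by_cases hxy : (x 0).down = (x 1).down
      · rw [if_pos hxy, if_pos hx0, if_pos hxy, if_pos hx1, hxy]
      · rw [if_neg hxy, if_pos ⟨rfl, hx0, hx1⟩, if_neg hxy, if_pos ⟨rfl, hx0, hx1⟩]
    rw [opVal, opVal, this]
  · have hx0 := hE0 x hx
    have hx1 := hE1 x hx
    refine ULift.ext _ _ ?_
    show opVal false E (x 0).down (x 0).down (x 1).down =
      opVal false E (x 1).down (x 1).down (x 1).down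
    have : code false E (x 0).down (x 0).down (x 1).down =
      code false E (x 1).down (x 1).down (x 1).down := by
      rw [code, if_neg (by simp), code, if_neg (by simp), codeQ, codeQ, if_pos rfl, if_pos rfl]
    rw [opVal, opVal, this]

end bad

theorem not_lgp : ¬ HasLGP.{u, v} (fun _ => True) cond := by
  classical
  rintro ⟨k, hk, h⟩
  have hinf : Infinite (ULift.{u} ℕ) := inferInstance
  have hinf2 : Infinite (Fin 2 → ULift.{u} ℕ) := inferInstance
  have hcard : (k : Cardinal.{u}) ≤ Cardinal.mk (Fin 2 → ULift.{u} ℕ) :=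
    (Cardinal.natCast_lt_aleph0 (n := k)).le.trans (Cardinal.aleph0_le_mk _)
  let X0 : Finset (Fin 2 → ULift.{u} ℕ) :=
    ((Finset.range (2 * k + 1)) ×ˢ (Finset.range (2 * k + 1))).image
      (fun r => ![⟨2 * r.1⟩, ⟨2 * r.2⟩])
  have hsat := h (badAlg.{u, v} k) trivial hcard (fun F hF => local_sat k F hF) X0
  obtain ⟨s, t, hs, ht, he⟩ := (satisfiesOn_cond_iff _).1 hsat
  refine no_terms k hk hs t ht fun x y hx hy => ?_
  obtain ⟨i, hi, hxi⟩ := hx
  obtain ⟨j, hj, hyj⟩ := hy
  have hmem : (![x, y] : Fin 2 → ULift.{u} ℕ) ∈ X0 := by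
    refine Finset.mem_image.2 ⟨(i, j), Finset.mem_product.2
      ⟨Finset.mem_range.2 hi, Finset.mem_range.2 hj⟩, ?_⟩
    rw [← hxi, ← hyj]
    rfl
  exact he _ hmem

/-- **The statement that every strong Maltsev condition of height 1 has the local-global property if
and only if it has the local-global property for idempotent algebras is false.** -/
theorem result : ∃ S : HeightOneCondition,
    HasLGP.{u, v} Alg.IsIdempotent S ∧ ¬ HasLGP.{u, v} (fun _ => True) S :=
  ⟨cond, lgp_idempotent, not_lgp⟩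

end Pool.Agent.Results.MP_c8915d_al.LocalGlobal
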